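import Mathlib
import Pool.Agent.Helper2.Mah.AF3

/-!
# Existence of a maximiser of `|L| / F(L)^n` (Blaschke selection)
-/

set_option autoImplicit false
set_option linter.unusedSectionVars false

open MeasureTheory Set Multiset Module
open scoped Pointwise NNReal ENNReal

noncomputable section

namespace Pool.Agent.Helper14.MB

open Pool.Agent.TH650.MV Pool.Agent.Helper2.Mah TopologicalSpace

variable {G : Type*} [NormedAddCommGroup G] [NormedSpace ℝ G] [FiniteDimensional ℝ G]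
  [MeasurableSpace G] [BorelSpace G] (μ : Measure G) [μ.IsAddHaarMeasure]

/-! ### the mixed volume with one free body -/

theorem W_one (K L : ConvexBody G) :
    W μ K L 1 = V μ (L ::ₘ replicate (finrank ℝ G - 1) K) := by
  unfold W
  rw [replicate_one, singleton_add]

theorem W1_add (K L M : ConvexBody G) (hn : 1 ≤ finrank ℝ G) :
    W μ K (L + M) 1 = W μ K L 1 + W μ K M 1 := by
  rw [W_one, W_one, W_one]
  exact V_add μ L M _ (by rw [card_replicate]; omega)

theorem W1_smul (K L : ConvexBody G) (c : ℝ≥0) (hn : 1 ≤ finrank ℝ G) :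
    W μ K (c • L) 1 = c * W μ K L 1 := by
  rw [W_one, W_one]
  exact V_smul μ c L _ (by rw [card_replicate]; omega)

theorem W1_mono (K : ConvexBody G) {L M : ConvexBody G} (h : L ≤ M) (hn : 1 ≤ finrank ℝ G) :
    W μ K L 1 ≤ W μ K M 1 := by
  rw [W_one, W_one]
  exact V_mono μ h _ (by rw [card_replicate]; omega)

theorem W1_sing (K : ConvexBody G) (x : G) (hn : 1 ≤ finrank ℝ G) :
    W μ K (sing x) 1 = 0 := by
  rw [W_one]
  exact V_sing μ x _ (by rw [card_replicate]; omega)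

theorem vl_mono {A B : ConvexBody G} (h : A ≤ B) : vl μ A ≤ vl μ B :=
  ENNReal.toReal_mono B.isCompact.measure_lt_top.ne (measure_mono h)

theorem measure_eq_vl (A : ConvexBody G) : μ (A : Set G) = ENNReal.ofReal (vl μ A) :=
  (ENNReal.ofReal_toReal A.isCompact.measure_lt_top.ne).symm

/-- a long segment forces a big volume -/
theorem W1_lower (K : ConvexBody G) (hK : 0 < vl μ K) (hn : 1 ≤ finrank ℝ G) :
    ∃ c : ℝ, 0 < c ∧ ∀ (L : ConvexBody G) (x : G), (0 : G) ∈ L → x ∈ L →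
      c * ‖x‖ ≤ W μ K L 1 := by
  set n := finrank ℝ G with hndef
  have hn0 : n ≠ 0 := by omega
  have hnR : (0 : ℝ) < (n : ℝ)⁻¹ := by positivity
  set a : ℝ := (vl μ K) ^ ((n : ℝ)⁻¹) with hadef
  have haA : a ^ n = vl μ K := Real.rpow_inv_natCast_pow (vl_nonneg μ _) hn0
  have ha : 0 < a := Real.rpow_pos_of_pos hK _
  set q : ℝ := (2 : ℝ) ^ ((n : ℝ)⁻¹) with hqdef
  have hq : q ^ n = 2 := Real.rpow_inv_natCast_pow (by norm_num) hn0
  have hq1 : 1 < q := Real.one_lt_rpow (by norm_num) hnR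
  obtain ⟨D, hD0, hD⟩ := K.isCompact.isBounded.subset_closedBall_lt 0 (0 : G)
  refine ⟨(q - 1) * a ^ n / (2 * D + 1), by
    have := sub_pos.2 hq1
    positivity, fun L x h0 hx => ?_⟩
  by_cases hx0 : x = 0
  · subst hx0
    rw [norm_zero, mul_zero]
    exact W_nonneg μ K L hn
  have hxn : 0 < ‖x‖ := norm_pos_iff.2 hx0
  set t : ℝ := (2 * D + 1) / ‖x‖ with htdef
  have ht : 0 < t := by positivity
  have htx : ‖t • x‖ = 2 * D + 1 := by
    rw [norm_smul, Real.norm_of_nonneg ht.le, htdef, div_mul_cancel₀ _ hxn.ne']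
  have htt : (t.toNNReal : ℝ) = t := Real.coe_toNNReal t ht.le
  -- two disjoint copies
  have hdisj : Disjoint (K : Set G) ((K + sing (t • x) : ConvexBody G) : Set G) := by
    rw [Set.disjoint_left]
    intro y hy hy'
    rw [ConvexBody.coe_add] at hy'
    obtain ⟨z, hz, w, hw, rfl⟩ := Set.mem_add.1 hy'
    have hw' : w = t • x := hw
    subst hw'
    have h1 : ‖z + t • x‖ ≤ D := by simpa using hD hy
    have h2 : ‖z‖ ≤ D := by simpa using hD hz
    have h3 : ‖t • x‖ ≤ ‖z + t • x‖ + ‖z‖ := by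
      calc ‖t • x‖ = ‖(z + t • x) - z‖ := by congr 1; abel
        _ ≤ _ := norm_sub_le _ _
    rw [htx] at h3
    linarith
  have hsub : (K : Set G) ∪ ((K + sing (t • x) : ConvexBody G) : Set G) ⊆
      ((K + t.toNNReal • L : ConvexBody G) : Set G) := by
    rw [ConvexBody.coe_add, ConvexBody.coe_add, ConvexBody.coe_smul']
    have hz : (0 : G) ∈ t.toNNReal • (L : Set G) := ⟨0, h0, smul_zero _⟩
    have hz' : t • x ∈ t.toNNReal • (L : Set G) := ⟨x, hx, by
      change (t.toNNReal : ℝ) • x = t • x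
      rw [htt]⟩
    rintro y (hy | hy)
    · exact ⟨y, hy, 0, hz, add_zero y⟩
    · obtain ⟨z, hz1, w, hw, rfl⟩ := Set.mem_add.1 hy
      have hw' : w = t • x := hw
      subst hw'
      exact ⟨z, hz1, _, hz', rfl⟩
  have hvol : 2 * vl μ K ≤ vl μ (K + t.toNNReal • L) := by
    have h1 : μ ((K : Set G) ∪ ((K + sing (t • x) : ConvexBody G) : Set G)) =
        μ (K : Set G) + μ ((K + sing (t • x) : ConvexBody G) : Set G) :=
      measure_union hdisj (K + sing (t • x)).isClosed.measurableSet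
    have h2 := measure_mono (μ := μ) hsub
    rw [h1] at h2
    have h3 := ENNReal.toReal_mono (K + t.toNNReal • L).isCompact.measure_lt_top.ne h2
    rw [ENNReal.toReal_add K.isCompact.measure_lt_top.ne
      (K + sing (t • x)).isCompact.measure_lt_top.ne] at h3
    have h4 : vl μ (K + sing (t • x)) = vl μ K := vl_add_sing μ K (t • x)
    unfold vl at h4 ⊢
    rw [h4] at h3
    linarith
  have hm := mink_first μ K (t.toNNReal • L) hn ha haA
  rw [W1_smul μ K L _ hn, htt] at hm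
  have hpow : (q * a) ^ n ≤ (a + t * W μ K L 1 / a ^ (n - 1)) ^ n := by
    rw [mul_pow, hq, haA]
    exact hvol.trans hm
  have hWn : 0 ≤ W μ K L 1 := W_nonneg μ K L hn
  have hle : q * a ≤ a + t * W μ K L 1 / a ^ (n - 1) :=
    le_of_pow_le_pow_left₀ hn0 (by positivity) hpow
  have hle2 : (q - 1) * a * a ^ (n - 1) ≤ t * W μ K L 1 := by
    have : (q - 1) * a ≤ t * W μ K L 1 / a ^ (n - 1) := by linarith
    rwa [le_div_iff₀ (pow_pos ha _)] at this
  have han : a * a ^ (n - 1) = a ^ n := by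
    rw [← pow_succ']; congr 1; omega
  rw [mul_assoc, han, htdef] at hle2
  rw [div_mul_eq_mul_div, div_le_iff₀ (by positivity)]
  rw [div_mul_eq_mul_div, le_div_iff₀ hxn] at hle2
  linarith

/-! ### selection -/

/-- the unit ball -/
def bal (G : Type*) [NormedAddCommGroup G] [NormedSpace ℝ G] [FiniteDimensional ℝ G] :
    ConvexBody G :=
  ⟨Metric.closedBall 0 1, convex_closedBall 0 1, isCompact_closedBall 0 1,
    ⟨0, Metric.mem_closedBall_self zero_le_one⟩⟩

theorem mem_add_bal {L : ConvexBody G} {x : G} {ε : ℝ} (hε : 0 < ε)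
    (h : ∃ y ∈ L, dist x y < ε) : x ∈ L + ε.toNNReal • bal G := by
  obtain ⟨y, hy, hd⟩ := h
  have h1 : (x : G) ∈ ((L + ε.toNNReal • bal G : ConvexBody G) : Set G) := by
    rw [ConvexBody.coe_add, ConvexBody.coe_smul']
    refine ⟨y, hy, x - y, ⟨ε⁻¹ • (x - y), ?_, ?_⟩, by simp⟩
    · change ε⁻¹ • (x - y) ∈ Metric.closedBall (0 : G) 1
      rw [mem_closedBall_zero_iff, norm_smul, norm_inv, Real.norm_of_nonneg hε.le, ← dist_eq_norm]
      rw [inv_mul_le_iff₀ hε, mul_one]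
      exact hd.le
    · change (ε.toNNReal : ℝ) • ε⁻¹ • (x - y) = x - y
      rw [Real.coe_toNNReal ε hε.le, smul_smul, mul_inv_cancel₀ hε.ne', one_smul]
  exact h1

theorem exists_lim {R : ℝ} (L : ℕ → ConvexBody G) (h0 : ∀ k, (0 : G) ∈ L k)
    (hR : ∀ k, (L k : Set G) ⊆ Metric.closedBall 0 R) :
    ∃ (B : ConvexBody G) (φ : ℕ → ℕ), StrictMono φ ∧ (0 : G) ∈ B ∧ ∀ ε : ℝ, 0 < ε →
      ∃ N : ℕ, ∀ k, N ≤ k → L (φ k) ≤ B + ε.toNNReal • bal G ∧ B ≤ L (φ k) + ε.toNNReal • bal G := by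
  let C : ℕ → NonemptyCompacts G := fun k => ⟨⟨L k, (L k).isCompact⟩, (L k).nonempty⟩
  have hcpt : IsCompact {K : NonemptyCompacts G | ↑K ⊆ Metric.closedBall (0 : G) R} :=
    NonemptyCompacts.isCompact_subsets_of_isCompact (isCompact_closedBall 0 R)
  obtain ⟨K, -, φ, hφ, hlim⟩ := hcpt.tendsto_subseq (x := C) (fun k => hR k)
  rw [Metric.tendsto_atTop] at hlim
  have hfin : ∀ k, Metric.hausdorffEDist (L k : Set G) (K : Set G) ≠ ⊤ := fun k =>
    Metric.hausdorffEDist_ne_top_of_nonempty_of_bounded (L k).nonempty K.nonempty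
      (L k).isCompact.isBounded K.isCompact.isBounded
  have key : ∀ ε : ℝ, 0 < ε → ∃ N : ℕ, ∀ k, N ≤ k →
      (∀ x ∈ L (φ k), ∃ y ∈ (K : Set G), dist x y < ε) ∧
      (∀ y ∈ (K : Set G), ∃ x ∈ L (φ k), dist y x < ε) := by
    intro ε hε
    obtain ⟨N, hN⟩ := hlim ε hε
    refine ⟨N, fun k hk => ?_⟩
    have hd : Metric.hausdorffDist (L (φ k) : Set G) (K : Set G) < ε := hN k hk
    refine ⟨fun x hx => ?_, fun y hy => ?_⟩
    · exact Metric.exists_dist_lt_of_hausdorffDist_lt hx hd (hfin _)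
    · obtain ⟨x, hx, hxy⟩ := Metric.exists_dist_lt_of_hausdorffDist_lt' hy hd (hfin _)
      exact ⟨x, hx, by rwa [dist_comm]⟩
  have hclosed : ∀ z : G, (∀ ε : ℝ, 0 < ε → ∃ y ∈ (K : Set G), dist z y < ε) → z ∈ (K : Set G) := by
    intro z hz
    have : z ∈ closure (K : Set G) := Metric.mem_closure_iff.2 hz
    rwa [K.isCompact.isClosed.closure_eq] at this
  have hconv : Convex ℝ (K : Set G) := by
    intro x hx y hy a b ha hb hab
    refine hclosed _ fun ε hε => ?_
    obtain ⟨N, hN⟩ := key (ε / 2) (by positivity)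
    obtain ⟨h1, h2⟩ := hN N le_rfl
    obtain ⟨x', hx', hxx⟩ := h2 x hx
    obtain ⟨y', hy', hyy⟩ := h2 y hy
    obtain ⟨z, hz, hzz⟩ := h1 _ ((L (φ N)).convex hx' hy' ha hb hab)
    refine ⟨z, hz, ?_⟩
    have h3 : dist (a • x + b • y) (a • x' + b • y') ≤ ε / 2 := by
      rw [dist_eq_norm]
      have e : a • x + b • y - (a • x' + b • y') = a • (x - x') + b • (y - y') := by
        simp only [smul_sub]; abel
      rw [e]
      calc ‖a • (x - x') + b • (y - y')‖ ≤ ‖a • (x - x')‖ + ‖b • (y - y')‖ := norm_add_le _ _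
        _ = a * dist x x' + b * dist y y' := by
            rw [norm_smul, norm_smul, Real.norm_of_nonneg ha, Real.norm_of_nonneg hb,
              dist_eq_norm, dist_eq_norm]
        _ ≤ a * (ε / 2) + b * (ε / 2) := by gcongr
        _ = ε / 2 := by rw [← add_mul, hab, one_mul]
    calc dist (a • x + b • y) z ≤ dist (a • x + b • y) (a • x' + b • y') +
          dist (a • x' + b • y') z := dist_triangle _ _ _
      _ < ε / 2 + ε / 2 := by linarith
      _ = ε := by ring
  have hzero : (0 : G) ∈ (K : Set G) := by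
    refine hclosed _ fun ε hε => ?_
    obtain ⟨N, hN⟩ := key ε hε
    exact (hN N le_rfl).1 0 (h0 _)
  refine ⟨⟨K, hconv, K.isCompact, K.nonempty⟩, φ, hφ, hzero, fun ε hε => ?_⟩
  obtain ⟨N, hN⟩ := key ε hε
  refine ⟨N, fun k hk => ?_⟩
  obtain ⟨h1, h2⟩ := hN k hk
  exact ⟨fun x hx => mem_add_bal hε (h1 x hx), fun x hx => mem_add_bal hε (h2 x hx)⟩

/-! ### the maximiser for an abstract functional -/

theorem exists_max (F : ConvexBody G → ℝ) (hn : 1 ≤ finrank ℝ G)
    (hadd : ∀ L M, F (L + M) = F L + F M) (hsmul : ∀ (c : ℝ≥0) L, F (c • L) = c * F L)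
    (hmono : ∀ L M, L ≤ M → F L ≤ F M) (hsing : ∀ x, F (sing x) = 0)
    (hnn : ∀ L, 0 ≤ F L)
    {c : ℝ} (hc : 0 < c) (hlow : ∀ (L : ConvexBody G) (x : G), (0 : G) ∈ L → x ∈ L → c * ‖x‖ ≤ F L)
    (hpos : ∀ L, 0 < vl μ L → 0 < F L) (K : ConvexBody G) (hK : 0 < vl μ K) :
    ∃ B : ConvexBody G, 0 < vl μ B ∧ ∀ L : ConvexBody G,
      vl μ L * F B ^ finrank ℝ G ≤ vl μ B * F L ^ finrank ℝ G := by
  set n := finrank ℝ G with hndef
  have hn0 : n ≠ 0 := by omega
  -- the admissible bodies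
  let A : Set ℝ := {r | ∃ L : ConvexBody G, (0 : G) ∈ L ∧ F L ≤ 1 ∧ r = vl μ L}
  have hball : ∀ L : ConvexBody G, (0 : G) ∈ L → F L ≤ 1 →
      (L : Set G) ⊆ Metric.closedBall 0 c⁻¹ := by
    intro L h0 h1 x hx
    rw [mem_closedBall_zero_iff, ← one_div, le_div_iff₀ hc, mul_comm]
    exact (hlow L x h0 hx).trans h1
  have hAb : BddAbove A := by
    refine ⟨(μ (Metric.closedBall (0 : G) c⁻¹)).toReal, ?_⟩
    rintro r ⟨L, h0, h1, rfl⟩
    exact ENNReal.toReal_mono (isCompact_closedBall (0 : G) c⁻¹).measure_lt_top.ne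
      (measure_mono (hball L h0 h1))
  have hF0 : F (sing 0) = 0 := hsing 0
  have hAn : A.Nonempty := ⟨_, sing 0, mem_singleton _, by rw [hF0]; exact zero_le_one, rfl⟩
  obtain ⟨u, -, hu, hmem⟩ := exists_seq_tendsto_sSup hAn hAb
  choose L hL0 hL1 hLu using hmem
  obtain ⟨B, φ, hφ, hB0, hB⟩ := exists_lim L hL0 (fun k => hball _ (hL0 k) (hL1 k))
  have hFB : F B ≤ 1 := by
    have hFb : 0 ≤ F (bal G) := hnn _
    refine le_of_forall_pos_le_add fun δ hδ => ?_
    obtain ⟨N, hN⟩ := hB (δ / (F (bal G) + 1)) (by positivity)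
    have h1 := hmono _ _ (hN N le_rfl).2
    rw [hadd, hsmul, Real.coe_toNNReal _ (by positivity)] at h1
    have h2 : δ / (F (bal G) + 1) * F (bal G) ≤ δ := by
      rw [div_mul_eq_mul_div, div_le_iff₀ (by positivity)]
      nlinarith
    have := hL1 (φ N)
    linarith
  have hsup : ∀ M : ConvexBody G, (0 : G) ∈ M → F M ≤ 1 → vl μ M ≤ vl μ B := by
    intro M hM0 hM1
    have hM : vl μ M ≤ sSup A := le_csSup hAb ⟨M, hM0, hM1, rfl⟩
    refine hM.trans ?_
    have hev : ∀ ε : ℝ, 0 < ε → sSup A ≤ vl μ (B + ε.toNNReal • bal G) := by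
      intro ε hε
      obtain ⟨N, hN⟩ := hB ε hε
      refine le_of_tendsto (hu.comp hφ.tendsto_atTop) ?_
      filter_upwards [Filter.eventually_ge_atTop N] with k hk
      rw [Function.comp_apply, hLu]
      exact vl_mono μ (hN k hk).1
    have hz := nonneg_at_zero (f := fun ε : ℝ => (∑ i ∈ Finset.range (finrank ℝ G + 1),
      ((finrank ℝ G).choose i : ℝ) * ε ^ i * W μ B (bal G) i) - sSup A) (by fun_prop) (by
        intro ε hε
        have h1 := hev ε hε
        rw [vl_W, Real.coe_toNNReal ε hε.le] at h1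
        linarith)
    have h0 : (∑ i ∈ Finset.range (finrank ℝ G + 1),
        ((finrank ℝ G).choose i : ℝ) * (0 : ℝ) ^ i * W μ B (bal G) i) = vl μ B := by
      rw [Finset.sum_range_succ', Finset.sum_eq_zero, zero_add, ← W_zero μ B (bal G)]
      · simp
      · intro i _
        simp
    simp only [h0] at hz
    linarith
  -- scaling
  have hgen : ∀ M : ConvexBody G, vl μ M ≤ vl μ B * F M ^ n := by
    intro M
    rcases (vl_nonneg μ M).eq_or_lt with h0 | h0
    · rw [← h0]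
      exact mul_nonneg (vl_nonneg μ _) (pow_nonneg (hnn _) _)
    have hf := hpos M h0
    obtain ⟨x₀, hx₀⟩ := M.nonempty
    set f := F M with hfdef
    have hfi : ((f⁻¹).toNNReal : ℝ) = f⁻¹ := Real.coe_toNNReal _ (by positivity)
    have h1 := hsup ((f⁻¹).toNNReal • (M + sing (-x₀))) (by
      have : (0 : G) ∈ (((f⁻¹).toNNReal • (M + sing (-x₀)) : ConvexBody G) : Set G) := by
        rw [ConvexBody.coe_smul', ConvexBody.coe_add]
        refine ⟨0, ⟨x₀, hx₀, -x₀, mem_singleton _, by simp⟩, smul_zero _⟩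
      exact this) (by
      rw [hsmul, hadd, hsing, add_zero, hfi, ← hfdef, inv_mul_cancel₀ hf.ne'])
    rw [vl_smul, vl_add_sing, hfi, inv_pow, inv_mul_le_iff₀ (by positivity)] at h1
    linarith
  have hBpos : 0 < vl μ B := by
    have h1 := hgen K
    have h2 : 0 < vl μ B * F K ^ n := lt_of_lt_of_le hK h1
    exact pos_of_mul_pos_left h2 (pow_nonneg (hnn _) _)
  refine ⟨B, hBpos, fun M => ?_⟩
  calc vl μ M * F B ^ n ≤ vl μ M * 1 :=
        mul_le_mul_of_nonneg_left (pow_le_one₀ (hnn _) hFB) (vl_nonneg μ _)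
    _ = vl μ M := mul_one _
    _ ≤ _ := hgen M

end Pool.Agent.Helper14.MB
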