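import Pool.Agent.Helper2.M3.Defs
import Pool.Agent.Helper14.MB.X2a

/-!
# X2: existence of a maximiser
-/

set_option autoImplicit false
set_option linter.unusedSectionVars false

open MeasureTheory Set Multiset Module
open scoped Pointwise NNReal ENNReal

noncomputable section

namespace Pool.Agent.Helper14.MB

open Pool.Agent.TH650.MV Pool.Agent.Helper2.Mah Pool.Agent.Helper2.M3

variable {G : Type*} [NormedAddCommGroup G] [NormedSpace ℝ G] [FiniteDimensional ℝ G]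
  [MeasurableSpace G] [BorelSpace G] (μ : Measure G) [μ.IsAddHaarMeasure]

/-- Minkowski's first inequality gives positivity -/
theorem W1_pos (K L : ConvexBody G) (hK : 0 < vl μ K) (hL : 0 < vl μ L) (hn : 1 ≤ finrank ℝ G) :
    0 < W μ K L 1 := by
  set n := finrank ℝ G with hndef
  have hn0 : n ≠ 0 := by omega
  set a : ℝ := (vl μ K) ^ ((n : ℝ)⁻¹) with hadef
  have haA : a ^ n = vl μ K := Real.rpow_inv_natCast_pow (vl_nonneg μ _) hn0
  have ha : 0 < a := Real.rpow_pos_of_pos hK _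
  set b : ℝ := (vl μ L) ^ ((n : ℝ)⁻¹) with hbdef
  have hbB : b ^ n = vl μ L := Real.rpow_inv_natCast_pow (vl_nonneg μ _) hn0
  have hb : 0 < b := Real.rpow_pos_of_pos hL _
  have h1 := bm μ K L ha hb haA.le hbB.le
  have h2 := mink_first μ K L hn ha haA
  have hW : 0 ≤ W μ K L 1 := W_nonneg μ K L hn
  have h3 : a + b ≤ a + W μ K L 1 / a ^ (n - 1) :=
    le_of_pow_le_pow_left₀ hn0 (by positivity) (h1.trans h2)
  have h4 : 0 < W μ K L 1 / a ^ (n - 1) := by linarith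
  exact (div_pos_iff_of_pos_right (pow_pos ha _)).1 h4

/-- X2 (existence of a maximiser) -/
theorem X2 (K₁ K₂ : ConvexBody G) (h₁ : 0 < vl μ K₁) {α β : ℝ} (hα : 0 < α) (hβ : 0 ≤ β)
    (hn : 2 ≤ finrank ℝ G) : ∃ B : ConvexBody G, 0 < vl μ B ∧ ∀ L : ConvexBody G,
      vl μ L * FF μ K₁ K₂ α β B ^ finrank ℝ G ≤ vl μ B * FF μ K₁ K₂ α β L ^ finrank ℝ G := by
  have hn1 : 1 ≤ finrank ℝ G := by omega
  obtain ⟨c, hc, hlow⟩ := W1_lower μ K₁ h₁ hn1
  have hW2 : ∀ L, 0 ≤ β * W μ K₂ L 1 := fun L => mul_nonneg hβ (W_nonneg μ K₂ L hn1)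
  refine exists_max μ (FF μ K₁ K₂ α β) hn1 (fun L M => ?_) (fun c L => ?_) (fun L M h => ?_)
    (fun x => ?_) (fun L => ?_) (c := α * c) (by positivity) (fun L x h0 hx => ?_)
    (fun L hL => ?_) K₁ h₁
  · unfold FF
    rw [W1_add μ K₁ L M hn1, W1_add μ K₂ L M hn1]
    ring
  · unfold FF
    rw [W1_smul μ K₁ L c hn1, W1_smul μ K₂ L c hn1]
    ring
  · unfold FF
    have h1 := W1_mono μ K₁ h hn1
    have h2 := W1_mono μ K₂ h hn1
    gcongr
  · unfold FF
    rw [W1_sing μ K₁ x hn1, W1_sing μ K₂ x hn1]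
    ring
  · have h1 := W_nonneg μ K₁ L hn1
    have h2 := hW2 L
    unfold FF
    positivity
  · have h1 := hlow L x h0 hx
    have h2 := hW2 L
    unfold FF
    have h3 : α * (c * ‖x‖) ≤ α * W μ K₁ L 1 := mul_le_mul_of_nonneg_left h1 hα.le
    linarith
  · have h1 := W1_pos μ K₁ L h₁ hL hn1
    have h2 := hW2 L
    unfold FF
    positivity

end Pool.Agent.Helper14.MB
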